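import Pool.Agent.helper16.CVL.SpecE
import Pool.Agent.helper52.ED.Spec

/-!
# Project cv: row HDM: a self map of the disc with hyperbolic derivative bounded below is an automorphism
-/

set_option autoImplicit false

open Complex Metric Set Filter Topology MeasureTheory
open HY (UD T S hd UN RM)
open RT (UC TD rm lf cr pd bl gr hdf Lf UP)
open PL (DK ht tr SUBH INR)

noncomputable section

namespace CVL

theorem HDM_ST (a x : ℂ) : S a x = T (-a) x := by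
  unfold S T
  rw [map_neg]
  ring_nf

/-- the derivative of `S a` in hyperbolic terms. -/
theorem HDM_S (hMOB : HY.MOB_stmt) {a : ℂ} (ha : a ∈ UD) {y : ℂ} (hy : y ∈ UD) :
    ‖deriv (S a) y‖ * (1 - ‖y‖ ^ 2) = 1 - ‖S a y‖ ^ 2 := by
  have ha' : -a ∈ UD := by
    rw [UD, mem_ball_zero_iff] at ha ⊢
    rwa [norm_neg]
  obtain ⟨-, -, -, -, -, -, -, h1, -, h2, -⟩ := hMOB (-a) ha'
  have e1 : S a = T (-a) := funext (HDM_ST a)
  rw [e1, h1 y hy, h2 y hy, norm_neg, norm_div, norm_pow]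
  have h3 : ‖(1 : ℂ) - (‖a‖ : ℂ) ^ 2‖ = 1 - ‖a‖ ^ 2 := by
    have h4 : (1 : ℂ) - (‖a‖ : ℂ) ^ 2 = ((1 - ‖a‖ ^ 2 : ℝ) : ℂ) := by push_cast; ring
    rw [h4, Complex.norm_real, Real.norm_of_nonneg]
    have h5 := mem_ball_zero_iff.1 ha
    have := norm_nonneg a
    nlinarith
  rw [h3]
  ring

/-- moving the centre. -/
theorem HDM_mv (hMOB : HY.MOB_stmt) (hHDI : HY.HDI_stmt) {F : ℂ → ℂ} (hF : DifferentiableOn ℂ F UD)
    (hm : MapsTo F UD UD) {z : ℂ} (hz : z ∈ UD) :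
    DifferentiableOn ℂ (fun y => T (F z) (F (S z y))) UD ∧ MapsTo (fun y => T (F z) (F (S z y))) UD UD ∧
      T (F z) (F (S z 0)) = 0 ∧ ∀ y ∈ UD, PL.hq (fun y => T (F z) (F (S z y))) y = PL.hq F (S z y) := by
  obtain ⟨hz1, -, hz3, -, hz5, -⟩ := hMOB z hz
  obtain ⟨hw1, hw2, -, hw4, -⟩ := hMOB (F z) (hm hz)
  have hUDo : IsOpen UD := isOpen_ball
  have hSm : MapsTo (S z) UD UD := fun y hy => (hz1 y hy).2.1
  have hFS : DifferentiableOn ℂ (fun y => F (S z y)) UD := hF.comp hz5 hSm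
  have hFSm : MapsTo (fun y => F (S z y)) UD UD := fun y hy => hm (hSm hy)
  refine ⟨hw4.comp hFS hFSm, fun y hy => (hw1 _ (hFSm hy)).1, by rw [hz3, hw2], ?_⟩
  intro y hy
  have hdy : DifferentiableAt ℂ (fun y => F (S z y)) y := (hFS y hy).differentiableAt (hUDo.mem_nhds hy)
  have h1 := (hHDI.1 (F z) (fun y => F (S z y)) y (hm hz) hdy (hFSm hy)).1
  have h2 : PL.hq (fun y => T (F z) (F (S z y))) y = hd (fun y => T (F z) (F (S z y))) y * (1 - ‖y‖ ^ 2) := by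
    unfold PL.hq hd
    ring
  rw [h2, h1]
  have h3 : deriv (fun y => F (S z y)) y = deriv F (S z y) * deriv (S z) y := by
    have h4 : DifferentiableAt ℂ F (S z y) := (hF _ (hSm hy)).differentiableAt (hUDo.mem_nhds (hSm hy))
    have h5 : DifferentiableAt ℂ (S z) y := (hz5 y hy).differentiableAt (hUDo.mem_nhds hy)
    exact (h4.hasDerivAt.comp y h5.hasDerivAt).deriv
  have h6 := HDM_S hMOB hz hy
  unfold hd PL.hq
  rw [h3, norm_mul, ← h6]
  ring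

theorem HDM_le (hSPK : ED.SPK_stmt) {F : ℂ → ℂ} (hF : DifferentiableOn ℂ F UD)
    (hm : MapsTo F UD UD) {z : ℂ} (hz : z ∈ UD) : PL.hq F z ≤ 1 := by
  have h1 := hSPK.2.2.2.2.2 F hF hm z hz
  have h2 : 0 < 1 - ‖z‖ ^ 2 := by
    have := mem_ball_zero_iff.1 hz
    have := norm_nonneg z
    nlinarith
  have h3 : PL.hq F z = hd F z * (1 - ‖z‖ ^ 2) := by
    unfold PL.hq hd
    ring
  rw [h3]
  rwa [le_div_iff₀ h2] at h1

/-- the numbers. -/
theorem HDM_num {m κ : ℝ} (hm0 : 0 < m) (hm1 : m < 1) (hκ0 : 0 ≤ κ) (hκ1 : κ ≤ 1 + (1 - m) / 8)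
    (h7 : 1 - (m * κ * (1 / 2)) ^ 2 ≤ κ * (3 / 4)) : False := by
  obtain ⟨t, ht⟩ : ∃ t : ℝ, t = 1 - m := ⟨_, rfl⟩
  have ht0 : 0 < t := by linarith
  have ht1 : t < 1 := by linarith
  rw [← ht] at hκ1
  have hm2 : m ^ 2 ≤ m := by nlinarith
  have hκ2 : κ ^ 2 ≤ 1 + 17 / 64 * t := by
    have h1 : κ ^ 2 ≤ (1 + t / 8) ^ 2 := pow_le_pow_left₀ hκ0 hκ1 2
    have h2 : t ^ 2 ≤ t := by nlinarith
    nlinarith
  have h3 : (m * κ * (1 / 2)) ^ 2 ≤ m * (1 + 17 / 64 * t) / 4 := by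
    have e1 : (m * κ * (1 / 2)) ^ 2 = m ^ 2 * κ ^ 2 / 4 := by ring
    rw [e1]
    have h4 : m ^ 2 * κ ^ 2 ≤ m * (1 + 17 / 64 * t) := mul_le_mul hm2 hκ2 (sq_nonneg _) hm0.le
    linarith
  have e2 : m = 1 - t := by linarith
  rw [e2] at h3
  nlinarith [sq_nonneg t]

/-- the step: a map with `G 0 = 0`, `hq ≥ m` and `‖G' 0‖ ≤ m (1 + ε)` has `hq < m` somewhere. -/
theorem HDM_step (hSPK : ED.SPK_stmt) {G : ℂ → ℂ} (hG : DifferentiableOn ℂ G UD) (hm : MapsTo G UD UD)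
    (h0 : G 0 = 0) {m ε : ℝ} (hm0 : 0 < m) (hm1 : m < 1) (hε : ε = (1 - m) / 8 / 32)
    (hlow : ∀ y ∈ UD, m ≤ PL.hq G y) (hup : ‖deriv G 0‖ ≤ m * (1 + ε)) : False := by
  have hUDo : IsOpen UD := isOpen_ball
  have hε0 : 0 < ε := by rw [hε]; linarith [hm1]
  have hε1 : ε ≤ 1 / 256 := by rw [hε]; linarith
  have hsch : ∀ y ∈ UD, ‖G y‖ ≤ ‖y‖ := fun y hy =>
    Complex.norm_le_norm_of_mapsTo_ball hG (fun x hx => ball_subset_closedBall (hm hx)) h0 (mem_ball_zero_iff.1 hy)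
  have hGd : ∀ y ∈ UD, m ≤ ‖deriv G y‖ := by
    intro y hy
    have h1 := hlow y hy
    have hy1 := mem_ball_zero_iff.1 hy
    have h2 : 0 < 1 - ‖y‖ ^ 2 := by
      have := norm_nonneg y
      nlinarith
    have h3 : 1 - ‖y‖ ^ 2 ≤ 1 - ‖G y‖ ^ 2 := by
      have := hsch y hy
      have := norm_nonneg (G y)
      nlinarith
    have h4 : 0 < 1 - ‖G y‖ ^ 2 := by linarith
    unfold PL.hq at h1
    rw [le_div_iff₀ h4] at h1
    have h5 : ‖deriv G y‖ * (1 - ‖y‖ ^ 2) ≥ m * (1 - ‖y‖ ^ 2) := by nlinarith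
    exact le_of_mul_le_mul_right h5 h2
  -- the function `h`
  set h : ℂ → ℂ := fun y => (m * (1 - ε) : ℝ) / deriv G y with hh
  have hG' : DifferentiableOn ℂ (deriv G) UD := hG.deriv hUDo
  have hne : ∀ y ∈ UD, deriv G y ≠ 0 := fun y hy h9 => by
    have := hGd y hy
    rw [h9, norm_zero] at this
    linarith
  have hhd : DifferentiableOn ℂ h UD := (differentiableOn_const _).div hG' hne
  have hc0 : 0 < m * (1 - ε) := by
    apply mul_pos hm0
    linarith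
  have hhn : ∀ y, ‖h y‖ = m * (1 - ε) / ‖deriv G y‖ := by
    intro y
    rw [hh]
    simp only [norm_div, Complex.norm_real]
    rw [Real.norm_of_nonneg hc0.le]
  have hhm : MapsTo h UD UD := by
    intro y hy
    rw [UD, mem_ball_zero_iff, hhn]
    have h1 := hGd y hy
    rw [div_lt_one (by linarith)]
    have : m * (1 - ε) < m := by nlinarith
    linarith
  have h00 : (0 : ℂ) ∈ UD := mem_ball_self one_pos
  -- at `0`
  have hh0 : 1 - ‖h 0‖ ≤ 2 * ε := by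
    rw [hhn]
    have h1 : 0 < ‖deriv G 0‖ := lt_of_lt_of_le hm0 (hGd 0 h00)
    have h2 : (1 - 2 * ε) * ‖deriv G 0‖ ≤ m * (1 - ε) := by
      have h3 : (1 - 2 * ε) * ‖deriv G 0‖ ≤ (1 - 2 * ε) * (m * (1 + ε)) :=
        mul_le_mul_of_nonneg_left hup (by linarith)
      have h4 : (1 - 2 * ε) * (m * (1 + ε)) ≤ m * (1 - ε) := by nlinarith [mul_pos hm0 (mul_pos hε0 hε0)]
      linarith
    have h5 : 1 - 2 * ε ≤ m * (1 - ε) / ‖deriv G 0‖ := by
      rw [le_div_iff₀ h1]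
      exact h2
    linarith
  -- on the half disc
  have hhalf : ∀ y : ℂ, ‖y‖ ≤ 1 / 2 → 1 - ‖h y‖ ≤ 16 * ε := by
    intro y hy
    have hyU : y ∈ UD := mem_ball_zero_iff.2 (by linarith)
    have h1 := hSPK.1 h hhd hhm y hyU 0 h00
    have h2 : ‖T y 0‖ = ‖y‖ := by
      unfold T
      simp
    rw [h2] at h1
    have h3 := hSPK.2.1 (h y) (hhm hyU) (h 0) (hhm h00)
    have h4 : 0 < 1 - ‖h y‖ := by
      have := mem_ball_zero_iff.1 (hhm hyU)
      linarith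
    rw [le_div_iff₀ h4] at h3
    have h5 : 1 / 2 ≤ 1 - ‖T (h y) (h 0)‖ := by linarith
    have h6 : 1 / 2 * (1 - ‖h y‖) ≤ (1 - ‖T (h y) (h 0)‖) * (1 - ‖h y‖) := mul_le_mul_of_nonneg_right h5 h4.le
    linarith
  -- the derivative on the half disc
  set κ : ℝ := 1 / (1 - 16 * ε) with hκ
  have hden : 0 < 1 - 16 * ε := by linarith
  have hκ1 : κ ≤ 1 + (1 - m) / 8 := by
    rw [hκ, div_le_iff₀ hden]
    have e1 : 16 * ε = (1 - m) / 16 := by rw [hε]; ring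
    rw [e1]
    nlinarith
  have hκ0 : 1 ≤ κ := by
    rw [hκ, le_div_iff₀ hden]
    linarith
  have hder : ∀ y : ℂ, ‖y‖ ≤ 1 / 2 → ‖deriv G y‖ ≤ m * κ := by
    intro y hy
    have hyU : y ∈ UD := mem_ball_zero_iff.2 (by linarith)
    have h1 := hhalf y hy
    rw [hhn] at h1
    have h2 : 0 < ‖deriv G y‖ := lt_of_lt_of_le hm0 (hGd y hyU)
    have h3 : 1 - 16 * ε ≤ m * (1 - ε) / ‖deriv G y‖ := by linarith
    rw [le_div_iff₀ h2] at h3
    rw [hκ, mul_one_div, le_div_iff₀ hden]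
    have : m * (1 - ε) ≤ m := by nlinarith
    linarith
  have hval : ‖G (1 / 2)‖ ≤ m * κ * (1 / 2) := by
    have h1 : Convex ℝ (closedBall (0 : ℂ) (1 / 2)) := convex_closedBall _ _
    have h2 := h1.norm_image_sub_le_of_norm_deriv_le (f := G) (C := m * κ) (x := 0) (y := 1 / 2)
      (fun x hx => by
        have hx' : x ∈ UD := mem_ball_zero_iff.2 (by
          rw [mem_closedBall_zero_iff] at hx
          linarith)
        exact (hG x hx').differentiableAt (hUDo.mem_nhds hx'))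
      (fun x hx => hder x (by rwa [mem_closedBall_zero_iff] at hx))
      (by simp) (by simp)
    rw [h0, sub_zero, sub_zero] at h2
    have h3 : ‖(1 / 2 : ℂ)‖ = 1 / 2 := by
      rw [norm_div]
      simp
    rwa [h3] at h2
  have hhU : (1 / 2 : ℂ) ∈ UD := mem_ball_zero_iff.2 (by
    rw [norm_div]
    simp
    norm_num)
  have hfin := hlow (1 / 2) hhU
  unfold PL.hq at hfin
  have h3 : ‖(1 / 2 : ℂ)‖ = 1 / 2 := by
    rw [norm_div]
    simp
  have hd2 := hder (1 / 2) (by rw [h3])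
  rw [h3] at hfin
  have hmκ : m * κ * (1 / 2) < 1 := by nlinarith
  have hG1 : 0 < 1 - ‖G (1 / 2)‖ ^ 2 := by
    have := norm_nonneg (G (1 / 2))
    nlinarith
  rw [le_div_iff₀ hG1] at hfin
  have h5 : ‖G (1 / 2)‖ ^ 2 ≤ (m * κ * (1 / 2)) ^ 2 := by
    apply pow_le_pow_left₀ (norm_nonneg _) hval
  have h6 : m * (1 - (m * κ * (1 / 2)) ^ 2) ≤ m * κ * (1 - (1 / 2) ^ 2) := by
    have h7 : m * (1 - (m * κ * (1 / 2)) ^ 2) ≤ m * (1 - ‖G (1 / 2)‖ ^ 2) :=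
      mul_le_mul_of_nonneg_left (by linarith) hm0.le
    have h8 : ‖deriv G (1 / 2)‖ * (1 - (1 / 2 : ℝ) ^ 2) ≤ m * κ * (1 - (1 / 2) ^ 2) :=
      mul_le_mul_of_nonneg_right hd2 (by norm_num)
    linarith
  have h7 : 1 - (m * κ * (1 / 2)) ^ 2 ≤ κ * (3 / 4) := by
    have h9 : m * (1 - (m * κ * (1 / 2)) ^ 2) ≤ m * (κ * (3 / 4)) := by
      have : m * κ * (1 - (1 / 2 : ℝ) ^ 2) = m * (κ * (3 / 4)) := by ring
      linarith
    exact le_of_mul_le_mul_left h9 hm0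
  exact HDM_num hm0 hm1 (by linarith) hκ1 h7

theorem HDM (hMOB : HY.MOB_stmt) (hHDI : HY.HDI_stmt) (hSPK : ED.SPK_stmt) : HDM_stmt := by
  intro F c hc hF hm hlow
  have h00 : (0 : ℂ) ∈ UD := mem_ball_self one_pos
  have hUDo : IsOpen UD := isOpen_ball
  set E : Set ℝ := PL.hq F '' UD with hE
  have hEne : E.Nonempty := ⟨_, 0, h00, rfl⟩
  have hEbd : BddBelow E := ⟨c, by rintro _ ⟨z, hz, rfl⟩; exact hlow z hz⟩
  set m : ℝ := sInf E with hmdef
  have hmc : c ≤ m := le_csInf hEne (by rintro _ ⟨z, hz, rfl⟩; exact hlow z hz)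
  have hmle : ∀ z ∈ UD, m ≤ PL.hq F z := fun z hz => csInf_le hEbd ⟨z, hz, rfl⟩
  have hm0 : 0 < m := lt_of_lt_of_le hc hmc
  have hm1 : 1 ≤ m := by
    by_contra hlt
    push Not at hlt
    obtain ⟨ε, hε⟩ : ∃ ε : ℝ, ε = (1 - m) / 8 / 32 := ⟨_, rfl⟩
    have hε0 : 0 < ε := by rw [hε]; linarith
    have hlt2 : m < m * (1 + ε) := by nlinarith
    obtain ⟨_, ⟨z, hz, rfl⟩, hzlt⟩ := exists_lt_of_csInf_lt hEne hlt2
    obtain ⟨g1, g2, g3, g4⟩ := HDM_mv hMOB hHDI hF hm hz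
    obtain ⟨hz1, -, hz3, -⟩ := hMOB z hz
    refine HDM_step hSPK g1 g2 g3 hm0 hlt hε (fun y hy => by
      rw [g4 y hy]
      exact hmle _ (hz1 y hy).2.1) ?_
    have h1 := g4 0 h00
    rw [hz3] at h1
    have h2 : PL.hq (fun y => T (F z) (F (S z y))) 0 = ‖deriv (fun y => T (F z) (F (S z y))) 0‖ := by
      unfold PL.hq
      simp only [g3]
      simp
    rw [← h2, h1]
    exact hzlt.le
  have hq1 : ∀ z ∈ UD, PL.hq F z = 1 := fun z hz => le_antisymm (HDM_le hSPK hF hm hz) (hm1.trans (hmle z hz))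
  refine ⟨hq1, ?_⟩
  obtain ⟨g1, g2, g3, g4⟩ := HDM_mv hMOB hHDI hF hm h00
  obtain ⟨hz1, -, hz3, -⟩ := hMOB 0 h00
  set G : ℂ → ℂ := fun y => T (F 0) (F (S 0 y)) with hG
  have hG0 : G 0 = 0 := g3
  have h1 : ‖deriv G 0‖ = 1 := by
    have h2 := g4 0 h00
    rw [hz3, hq1 0 h00] at h2
    unfold PL.hq at h2
    rw [hG0] at h2
    simpa using h2
  have h2 : MapsTo G (ball 0 1) (closedBall (G 0) 1) := by
    intro y hy
    rw [hG0]
    exact ball_subset_closedBall (g2 hy)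
  have h3 := Complex.affine_of_mapsTo_ball_of_norm_dslope_eq_div (f := G) (c := 0) (R₁ := 1) (R₂ := 1) (z₀ := 0) g1 h2
    (mem_ball_self one_pos) (by rw [dslope_same, h1]; norm_num)
  rw [dslope_same] at h3
  refine ⟨deriv G 0, h1, ?_⟩
  intro z hz
  have h4 := h3 hz
  simp only [hG0, zero_add, sub_zero, smul_eq_mul] at h4
  have h5 : S 0 z = z := by
    unfold S
    simp
  obtain ⟨hw1, -⟩ := hMOB (F 0) (hm h00)
  have h6 := (hw1 (F z) (hm hz)).2.2.1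
  rw [← h6]
  congr 1
  have h7 : G z = T (F 0) (F z) := by
    rw [hG]
    simp only [h5]
  rw [← h7, h4]
  ring

end CVL
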